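import Pool.Agent.helper69.SN.SpecB

/-! Row sn:bRMX: the regularized maximum. -/

set_option autoImplicit false

open scoped Pointwise ContDiff
open MeasureTheory Set Filter Topology

namespace Pool.Agent.helper85.SN

open Pool.Agent.helper83.SC Pool.Agent.helper69.SN

/-- The derivative of the smooth absolute value. -/
noncomputable def RMX_ps (s t : ℝ) : ℝ := 2 * Real.smoothTransition ((t + s) / (2 * s)) - 1

theorem RMX_ps_contDiff (s : ℝ) : ContDiff ℝ ∞ (RMX_ps s) := by
  unfold RMX_ps
  have h : ContDiff ℝ ∞ fun t : ℝ => Real.smoothTransition ((t + s) / (2 * s)) :=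
    Real.smoothTransition.contDiff.comp ((contDiff_id.add contDiff_const).div_const _)
  exact (contDiff_const.mul h).sub contDiff_const

theorem RMX_ps_mono {s : ℝ} (hs : 0 < s) : Monotone (RMX_ps s) := by
  intro a b hab
  unfold RMX_ps
  have h : Real.smoothTransition ((a + s) / (2 * s)) ≤ Real.smoothTransition ((b + s) / (2 * s)) := by
    apply Real.smoothTransition.monotone
    gcongr
  linarith

theorem RMX_ps_le (s t : ℝ) : RMX_ps s t ≤ 1 := by
  unfold RMX_ps
  have := Real.smoothTransition.le_one ((t + s) / (2 * s))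
  linarith

theorem RMX_ps_ge (s t : ℝ) : -1 ≤ RMX_ps s t := by
  unfold RMX_ps
  have := Real.smoothTransition.nonneg ((t + s) / (2 * s))
  linarith

theorem RMX_ps_right {s t : ℝ} (hs : 0 < s) (ht : s ≤ t) : RMX_ps s t = 1 := by
  unfold RMX_ps
  rw [Real.smoothTransition.one_of_one_le]
  · norm_num
  · rw [le_div_iff₀ (by linarith)]
    linarith

theorem RMX_ps_left {s t : ℝ} (hs : 0 < s) (ht : t ≤ -s) : RMX_ps s t = -1 := by
  unfold RMX_ps
  rw [Real.smoothTransition.zero_of_nonpos]
  · norm_num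
  · exact div_nonpos_of_nonpos_of_nonneg (by linarith) (by linarith)

theorem RMX_st_symm (x : ℝ) : Real.smoothTransition (1 - x) = 1 - Real.smoothTransition x := by
  have h := Real.smoothTransition.pos_denom x
  unfold Real.smoothTransition
  have e1 : (1 : ℝ) - (1 - x) = x := by ring
  rw [e1, eq_sub_iff_add_eq, add_comm (expNegInvGlue (1 - x)) (expNegInvGlue x), ← add_div,
    add_comm (expNegInvGlue (1 - x)) (expNegInvGlue x), div_self h.ne']

theorem RMX_ps_odd {s : ℝ} (hs : 0 < s) (t : ℝ) : RMX_ps s (-t) = -RMX_ps s t := by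
  unfold RMX_ps
  have e1 : (-t + s) / (2 * s) = 1 - (t + s) / (2 * s) := by
    field_simp
    ring
  rw [e1, RMX_st_symm]
  ring

/-- The smooth absolute value. -/
noncomputable def RMX_et (s t : ℝ) : ℝ := s + ∫ x in (-s)..t, RMX_ps s x

theorem RMX_et_deriv (s t : ℝ) : HasDerivAt (RMX_et s) (RMX_ps s t) t := by
  have h := ((RMX_ps_contDiff s).continuous.integral_hasStrictDerivAt (-s) t).hasDerivAt
  exact h.const_add s

theorem RMX_et_contDiff (s : ℝ) : ContDiff ℝ ∞ (RMX_et s) := by
  rw [contDiff_infty_iff_deriv]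
  refine ⟨fun t => (RMX_et_deriv s t).differentiableAt, ?_⟩
  have : deriv (RMX_et s) = RMX_ps s := funext fun t => (RMX_et_deriv s t).deriv
  rw [this]
  exact RMX_ps_contDiff s

theorem RMX_et_left {s t : ℝ} (hs : 0 < s) (ht : t ≤ -s) : RMX_et s t = -t := by
  unfold RMX_et
  have h : ∫ x in (-s)..t, RMX_ps s x = ∫ x in (-s)..t, (-1 : ℝ) := by
    apply intervalIntegral.integral_congr
    intro x hx
    rw [uIcc_of_ge ht] at hx
    exact RMX_ps_left hs hx.2
  rw [h, intervalIntegral.integral_const]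
  simp

theorem RMX_et_zero {s : ℝ} (hs : 0 < s) : ∫ x in (-s)..s, RMX_ps s x = 0 := by
  have h1 : ∫ x in (-s)..s, RMX_ps s (-x) = ∫ x in (-s)..s, RMX_ps s x := by
    rw [intervalIntegral.integral_comp_neg (fun x => RMX_ps s x)]
    simp
  have h2 : ∫ x in (-s)..s, RMX_ps s (-x) = -∫ x in (-s)..s, RMX_ps s x := by
    rw [← intervalIntegral.integral_neg]
    exact intervalIntegral.integral_congr fun x _ => RMX_ps_odd hs x
  linarith

theorem RMX_et_right {s t : ℝ} (hs : 0 < s) (ht : s ≤ t) : RMX_et s t = t := by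
  unfold RMX_et
  have hc := (RMX_ps_contDiff s).continuous
  rw [← intervalIntegral.integral_add_adjacent_intervals (hc.intervalIntegrable (-s) s)
    (hc.intervalIntegrable s t), RMX_et_zero hs]
  have h : ∫ x in s..t, RMX_ps s x = ∫ x in s..t, (1 : ℝ) := by
    apply intervalIntegral.integral_congr
    intro x hx
    rw [uIcc_of_le ht] at hx
    exact RMX_ps_right hs hx.1
  rw [h, intervalIntegral.integral_const]
  simp

theorem RMX_et_convex {s : ℝ} (hs : 0 < s) : ConvexOn ℝ univ (RMX_et s) := by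
  apply Monotone.convexOn_univ_of_deriv
  · exact fun t => (RMX_et_deriv s t).differentiableAt
  · have : deriv (RMX_et s) = RMX_ps s := funext fun t => (RMX_et_deriv s t).deriv
    rw [this]
    exact RMX_ps_mono hs

theorem RMX_et_add (s : ℝ) : Monotone fun t => RMX_et s t + t := by
  apply monotone_of_deriv_nonneg
  · exact fun t => ((RMX_et_deriv s t).add (hasDerivAt_id t)).differentiableAt
  · intro t
    have h : HasDerivAt (fun t => RMX_et s t + t) (RMX_ps s t + 1) t :=
      (RMX_et_deriv s t).add (hasDerivAt_id t)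
    rw [h.deriv]
    linarith [RMX_ps_ge s t]

theorem RMX_et_sub (s : ℝ) : Antitone fun t => RMX_et s t - t := by
  apply antitone_of_deriv_nonpos
  · exact fun t => ((RMX_et_deriv s t).sub (hasDerivAt_id t)).differentiableAt
  · intro t
    have h : HasDerivAt (fun t => RMX_et s t - t) (RMX_ps s t - 1) t :=
      (RMX_et_deriv s t).sub (hasDerivAt_id t)
    rw [h.deriv]
    linarith [RMX_ps_le s t]

theorem RMX_et_ge {s : ℝ} (hs : 0 < s) (t : ℝ) : |t| ≤ RMX_et s t := by
  rw [abs_le']
  constructor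
  · rcases le_total t s with h | h
    · have h1 := RMX_et_sub s h
      simp only [RMX_et_right hs le_rfl] at h1
      linarith
    · rw [RMX_et_right hs h]
  · rcases le_total (-s) t with h | h
    · have h1 := RMX_et_add s h
      simp only [RMX_et_left hs le_rfl] at h1
      linarith
    · rw [RMX_et_left hs h]

theorem RMX_et_le {s : ℝ} (hs : 0 < s) (t : ℝ) : RMX_et s t ≤ |t| + s := by
  rcases le_total s t with h | h
  · rw [RMX_et_right hs h]
    linarith [le_abs_self t]
  · rcases le_total t (-s) with h' | h'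
    · rw [RMX_et_left hs h']
      linarith [neg_abs_le t]
    · have h1 := (RMX_et_convex hs).le_max_of_mem_Icc (mem_univ (-s)) (mem_univ s) ⟨h', h⟩
      rw [RMX_et_left hs le_rfl, RMX_et_right hs le_rfl] at h1
      simp only [neg_neg, max_self] at h1
      linarith [abs_nonneg t]

/-- `η` is nonexpansive. -/
theorem RMX_et_lip (s a b : ℝ) : RMX_et s a - RMX_et s b ≤ |a - b| := by
  rcases le_total a b with h | h
  · have h1 := RMX_et_add s h
    simp only at h1
    rw [abs_of_nonpos (by linarith)]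
    linarith
  · have h1 := RMX_et_sub s h
    simp only at h1
    rw [abs_of_nonneg (by linarith)]
    linarith

/-- The regularized maximum. -/
noncomputable def RMX_w {m : ℕ} (s : ℝ) (u v : E m → ℝ) (x : E m) : ℝ :=
  (u x + v x) / 2 + RMX_et s (u x - v x) / 2

theorem RMX_w_contDiff {m : ℕ} (s : ℝ) {u v : E m → ℝ} (hu : ContDiff ℝ ∞ u)
    (hv : ContDiff ℝ ∞ v) : ContDiff ℝ ∞ (RMX_w s u v) := by
  unfold RMX_w
  exact ((hu.add hv).div_const 2).add (((RMX_et_contDiff s).comp (hu.sub hv)).div_const 2)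

theorem RMX_w_convex {m : ℕ} {s : ℝ} (hs : 0 < s) {u v : E m → ℝ} (hu : CV u) (hv : CV v) :
    CV (RMX_w s u v) := by
  refine ⟨convex_univ, ?_⟩
  intro x _ y _ a b ha hb hab
  have h1 := hu.2 (mem_univ x) (mem_univ y) ha hb hab
  have h2 := hv.2 (mem_univ x) (mem_univ y) ha hb hab
  have h3 := (RMX_et_convex hs).2 (mem_univ (u x - v x)) (mem_univ (u y - v y)) ha hb hab
  simp only [smul_eq_mul] at h1 h2 h3 ⊢
  unfold RMX_w
  set z := a • x + b • y
  have h4 := RMX_et_lip s (u z - v z) (a * (u x - v x) + b * (u y - v y))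
  have h5 : |u z - v z - (a * (u x - v x) + b * (u y - v y))| ≤
      (a * u x + b * u y - u z) + (a * v x + b * v y - v z) := by
    rw [abs_le]
    constructor <;> linarith
  linarith

theorem RMX_pd {m : ℕ} (s : ℝ) {u v : E m → ℝ} (hu : ContDiff ℝ ∞ u) (hv : ContDiff ℝ ∞ v)
    (j : Fin m) (x : E m) : pd j (RMX_w s u v) x = (pd j u x + pd j v x) / 2 +
      RMX_ps s (u x - v x) * (pd j u x - pd j v x) / 2 := by
  have du : HasFDerivAt u (fderiv ℝ u x) x := (hu.differentiable (by simp) x).hasFDerivAt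
  have dv : HasFDerivAt v (fderiv ℝ v x) x := (hv.differentiable (by simp) x).hasFDerivAt
  have de : HasFDerivAt (fun x => RMX_et s (u x - v x))
      (RMX_ps s (u x - v x) • (fderiv ℝ u x - fderiv ℝ v x)) x :=
    HasDerivAt.comp_hasFDerivAt (h₂ := RMX_et s) (f := fun y => u y - v y) x
      (RMX_et_deriv s (u x - v x)) (du.sub dv)
  have h : HasFDerivAt (RMX_w s u v) ((2 : ℝ)⁻¹ • (fderiv ℝ u x + fderiv ℝ v x) +
      (2 : ℝ)⁻¹ • (RMX_ps s (u x - v x) • (fderiv ℝ u x - fderiv ℝ v x))) x := by
    have h1 := ((du.add dv).const_smul (2 : ℝ)⁻¹).add (de.const_smul (2 : ℝ)⁻¹)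
    refine h1.congr_of_eventuallyEq (Eventually.of_forall fun y => ?_)
    simp only [RMX_w, Pi.add_apply, Pi.smul_apply, smul_eq_mul]
    ring
  unfold pd
  rw [h.fderiv]
  simp
  ring

theorem RMX_pd_contDiff {m : ℕ} {u : E m → ℝ} (hu : ContDiff ℝ ∞ u) (j : Fin m) :
    ContDiff ℝ ∞ (pd j u) := by
  unfold pd
  exact (hu.fderiv_right (m := ∞) (by simp)).clm_apply contDiff_const

theorem RMX_hess {m : ℕ} (s : ℝ) {u v : E m → ℝ} (hu : ContDiff ℝ ∞ u) (hv : ContDiff ℝ ∞ v)
    (x : E m) : hess (RMX_w s u v) x = ((1 + RMX_ps s (u x - v x)) / 2) • hess u x +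
      (1 - (1 + RMX_ps s (u x - v x)) / 2) • hess v x +
      (deriv (RMX_ps s) (u x - v x) / 2) • Matrix.vecMulVec (fun i => pd i u x - pd i v x)
        (fun i => pd i u x - pd i v x) := by
  ext i j
  have du : HasFDerivAt u (fderiv ℝ u x) x := (hu.differentiable (by simp) x).hasFDerivAt
  have dv : HasFDerivAt v (fderiv ℝ v x) x := (hv.differentiable (by simp) x).hasFDerivAt
  have duj : HasFDerivAt (pd j u) (fderiv ℝ (pd j u) x) x :=
    ((RMX_pd_contDiff hu j).differentiable (by simp) x).hasFDerivAt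
  have dvj : HasFDerivAt (pd j v) (fderiv ℝ (pd j v) x) x :=
    ((RMX_pd_contDiff hv j).differentiable (by simp) x).hasFDerivAt
  have dp : HasFDerivAt (fun x => RMX_ps s (u x - v x))
      (deriv (RMX_ps s) (u x - v x) • (fderiv ℝ u x - fderiv ℝ v x)) x :=
    HasDerivAt.comp_hasFDerivAt (h₂ := RMX_ps s) (f := fun y => u y - v y) x
      ((RMX_ps_contDiff s).differentiable (by simp) (u x - v x)).hasDerivAt (du.sub dv)
  have h1 := ((duj.add dvj).const_smul (2 : ℝ)⁻¹).add ((dp.mul (duj.sub dvj)).const_smul (2 : ℝ)⁻¹)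
  have h0 : pd j (RMX_w s u v) =ᶠ[𝓝 x] ((2 : ℝ)⁻¹ • (pd j u + pd j v) +
      (2 : ℝ)⁻¹ • ((fun x => RMX_ps s (u x - v x)) * (pd j u - pd j v))) := by
    refine Eventually.of_forall fun y => ?_
    rw [RMX_pd s hu hv]
    simp only [Pi.add_apply, Pi.smul_apply, smul_eq_mul, Pi.mul_apply, Pi.sub_apply]
    ring
  have h2 := h1.congr_of_eventuallyEq h0
  have h3 : hess (RMX_w s u v) x i j = fderiv ℝ (pd j (RMX_w s u v)) x (e i) := rfl
  rw [h3, h2.fderiv]
  simp only [hess, Matrix.add_apply, Matrix.smul_apply, Matrix.of_apply, Matrix.vecMulVec_apply,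
    smul_eq_mul, ContinuousLinearMap.add_apply, ContinuousLinearMap.smul_apply,
    ContinuousLinearMap.sub_apply, Pi.sub_apply]
  unfold pd
  ring

theorem bRMX : bRMX_stmt := by
  intro m s hs u v hu hv
  refine ⟨RMX_w s u v, RMX_w_contDiff s hu hv, ?_, ?_, ?_, RMX_w_convex hs, ?_⟩
  · intro x
    have h1 := RMX_et_ge hs (u x - v x)
    have h2 := RMX_et_le hs (u x - v x)
    have h3 : max (u x) (v x) = (u x + v x) / 2 + |u x - v x| / 2 := by
      rcases le_total (u x) (v x) with h | h
      · rw [max_eq_right h, abs_of_nonpos (by linarith)]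
        ring
      · rw [max_eq_left h, abs_of_nonneg (by linarith)]
        ring
    unfold RMX_w
    rw [h3]
    constructor <;> linarith
  · intro x hx
    unfold RMX_w
    rw [RMX_et_right hs (by linarith)]
    ring
  · intro x hx
    unfold RMX_w
    rw [RMX_et_left hs (by linarith)]
    ring
  · intro x
    refine ⟨(1 + RMX_ps s (u x - v x)) / 2, (deriv (RMX_ps s) (u x - v x) / 2) •
      Matrix.vecMulVec (fun i => pd i u x - pd i v x) (fun i => pd i u x - pd i v x),
      ?_, ?_, ?_, RMX_hess s hu hv x, ?_, ?_⟩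
    · linarith [RMX_ps_ge s (u x - v x)]
    · linarith [RMX_ps_le s (u x - v x)]
    · have h1 : (Matrix.vecMulVec (fun i => pd i u x - pd i v x)
          (fun i => pd i u x - pd i v x)).PosSemidef := by
        have := Matrix.posSemidef_vecMulVec_self_star (fun i => pd i u x - pd i v x)
        simpa using this
      refine h1.smul ?_
      have : 0 ≤ deriv (RMX_ps s) (u x - v x) := (RMX_ps_mono hs).deriv_nonneg
      linarith
    · intro hx
      have h1 : RMX_ps s (u x - v x) = 1 := RMX_ps_right hs (by linarith)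
      have h2 : deriv (RMX_ps s) (u x - v x) = 0 := by
        have h3 : RMX_ps s =ᶠ[𝓝 (u x - v x)] fun _ => (1 : ℝ) := by
          filter_upwards [lt_mem_nhds (show s < u x - v x by linarith)] with t ht
          exact RMX_ps_right hs ht.le
        rw [h3.deriv_eq]
        simp
      rw [h1, h2]
      constructor
      · norm_num
      · simp
    · intro hx
      have h1 : RMX_ps s (u x - v x) = -1 := RMX_ps_left hs (by linarith)
      have h2 : deriv (RMX_ps s) (u x - v x) = 0 := by
        have h3 : RMX_ps s =ᶠ[𝓝 (u x - v x)] fun _ => (-1 : ℝ) := by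
          filter_upwards [gt_mem_nhds (show u x - v x < -s by linarith)] with t ht
          exact RMX_ps_left hs ht.le
        rw [h3.deriv_eq]
        simp
      rw [h1, h2]
      constructor
      · norm_num
      · simp

end Pool.Agent.helper85.SN
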