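import Pool.Agent.helper28.SN.SpecC
import Pool.Agent.helper35.SC.LA2

/-! Row sn:cMON: monotonicity of the operators in positive semidefinite arguments. -/

set_option autoImplicit false

open scoped Pointwise ContDiff
open MeasureTheory Set Filter Topology

namespace Pool.Agent.helper28.SN

open Pool.Agent.helper83.SC Pool.Agent.helper69.SN

theorem cMON_psd {m n : ℕ} {B : Fin n → Mat m} {A M : Mat m} (hB : Psd B) (hA : A.PosSemidef)
    (hM : M.PosSemidef) (T : Finset (Fin n)) (r : ℕ) (j : Fin m) :
    (slotA B T r A M j).PosSemidef := by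
  unfold slotA
  split_ifs
  · exact hB _
  · exact hA
  · exact hM

theorem cMON_sub {m n : ℕ} {B : Fin n → Mat m} {A M N : Mat m} (hMN : (N - M).PosSemidef)
    (T : Finset (Fin n)) (r : ℕ) (j : Fin m) :
    (slotA B T r A N j - slotA B T r A M j).PosSemidef := by
  unfold slotA
  split_ifs
  · rw [sub_self]
    exact Matrix.PosSemidef.zero
  · rw [sub_self]
    exact Matrix.PosSemidef.zero
  · exact hMN

theorem cMON : cMON_stmt := by
  intro m n B A M N r hB hA hM hMN
  constructor
  · exact Finset.sum_nonneg fun T _ => mul_nonneg (Nat.cast_nonneg _)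
      (mD_nonneg_of fun j => cMON_psd hB hA hM T r j)
  · exact Finset.sum_le_sum fun T _ => mul_le_mul_of_nonneg_left
      (mD_mono_of (fun j => cMON_psd hB hA hM T r j) fun j => cMON_sub hMN T r j)
      (Nat.cast_nonneg _)

end Pool.Agent.helper28.SN
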