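import Pool.Agent.helper40.SN.SpecD

/-!
Row sn:dCOM (project sn, MP_d2d7b9): the competitor.
-/

open scoped Pointwise ContDiff
open MeasureTheory Set Filter Topology Pool.Agent.helper83.SC Pool.Agent.helper69.SN

set_option linter.unusedVariables false

namespace Pool.Agent.helper40.SN

theorem dCOM_cut {δ t : ℝ} (hδ : 0 < δ) (ht : t < δ / 2) : cut δ t = 1 := by
  unfold cut
  have h1 : 2 * t / δ < 1 := by
    rw [div_lt_one hδ]
    linarith
  have h2 : (1 : ℝ) ≤ 2 - 2 * t / δ := by linarith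
  exact min_eq_left (h2.trans (le_max_right _ _))

theorem dCOM_cut_nn (δ t : ℝ) : 0 ≤ cut δ t := le_min zero_le_one (le_max_left _ _)

/-- Nonnegative combinations of smooth convex functions. -/
theorem dCOM_smc_smul {m : ℕ} {f : E m → ℝ} (hf : SmC f) {c : ℝ} (hc : 0 ≤ c) :
    SmC (fun x => c * f x) := by
  refine ⟨contDiff_const.mul hf.1, ?_⟩
  have h := hf.2.smul hc
  exact h

theorem dCOM_smc_add {m : ℕ} {f g : E m → ℝ} (hf : SmC f) (hg : SmC g) :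
    SmC (fun x => f x + g x) := ⟨hf.1.add hg.1, hf.2.add hg.2⟩

theorem dCOM_smc_zero {m : ℕ} : SmC (fun _ : E m => (0 : ℝ)) :=
  ⟨contDiff_const, convexOn_const 0 convex_univ⟩

theorem dCOM_smc_sum {m n : ℕ} {f : Fin n → E m → ℝ} (hf : ∀ i, SmC (f i)) {c : Fin n → ℝ}
    (s : Finset (Fin n)) (hc : ∀ i ∈ s, 0 ≤ c i) : SmC (fun x => ∑ i ∈ s, c i * f i x) := by
  classical
  induction s using Finset.induction_on with
  | empty =>
    simp only [Finset.sum_empty]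
    exact dCOM_smc_zero
  | insert i s hi ih =>
    have h1 := ih (fun k hk => hc k (Finset.mem_insert_of_mem hk))
    have h2 := dCOM_smc_smul (hf i) (hc i (Finset.mem_insert_self i s))
    have h3 := dCOM_smc_add h2 h1
    have h4 : (fun x => ∑ k ∈ insert i s, c k * f k x) =
        fun x => c i * f i x + ∑ k ∈ s, c k * f k x := by
      funext x
      rw [Finset.sum_insert hi]
    rw [h4]
    exact h3

/-- The sum of the weighted matrices. -/
theorem dCOM_sum_one {V : Type*} [AddCommGroup V] [Module ℝ V] {n : ℕ} (S : Finset (Fin n))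
    (A : Fin n → V) : ∑ i, wt S 1 ∅ 0 i • A i = ∑ i ∈ S, A i := by
  have h1 : ∑ i ∈ S, wt S 1 ∅ 0 i • A i = ∑ i, wt S 1 ∅ 0 i • A i := by
    apply Finset.sum_subset (Finset.subset_univ S)
    intro i _ hi
    simp [wt, hi]
  rw [← h1]
  refine Finset.sum_congr rfl fun i hi => ?_
  simp [wt, hi]

theorem dCOM_sum_wt {V : Type*} [AddCommGroup V] [Module ℝ V] {n : ℕ} {S T : Finset (Fin n)}
    (hTS : T ⊆ S) (K σ : ℝ) (A : Fin n → V) :
    ∑ i, wt T K (S \ T) σ i • A i = ∑ i ∈ S, wt T K (S \ T) σ i • A i := by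
  symm
  apply Finset.sum_subset (Finset.subset_univ S)
  intro i _ hi
  have h1 : i ∉ T := fun h => hi (hTS h)
  simp [wt, hi, h1]

theorem dCOM_sum_wt1 {n : ℕ} {S T : Finset (Fin n)} (hTS : T ⊆ S) (K : ℝ) (f : Fin n → ℝ) :
    ∑ i ∈ S, wt T K (S \ T) 1 i * f i = K * ∑ i ∈ T, f i + ∑ i ∈ S \ T, f i := by
  rw [← Finset.sum_sdiff hTS, add_comm, Finset.mul_sum]
  congr 1
  · refine Finset.sum_congr rfl fun i hi => ?_
    simp [wt, hi]
  · refine Finset.sum_congr rfl fun i hi => ?_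
    have h1 := Finset.mem_sdiff.1 hi
    simp [wt, h1.1, h1.2]

theorem dCOM_wt_nn {n : ℕ} (S T : Finset (Fin n)) {K σ : ℝ} (hK : 0 ≤ K) (hσ : 0 ≤ σ)
    (i : Fin n) : 0 ≤ wt T K (S \ T) σ i := by
  unfold wt
  split_ifs <;> first | exact hK | exact hσ | exact le_refl _

theorem dCOM_wt_le {n : ℕ} {S T : Finset (Fin n)} (hTS : T ⊆ S) {K A : ℝ} (hKA : K ≤ A)
    (hA : 1 ≤ A) (i : Fin n) : A⁻¹ * wt T K (S \ T) 1 i ≤ wt S 1 ∅ 0 i := by
  have hA0 : 0 < A := lt_of_lt_of_le one_pos hA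
  unfold wt
  by_cases h1 : i ∈ T
  · have h2 := hTS h1
    simp only [h1, h2, if_true]
    rw [inv_mul_le_iff₀ hA0]
    linarith
  · by_cases h2 : i ∈ S
    · simp only [h1, h2, if_true, if_false, Finset.mem_sdiff, not_false_eq_true, and_self]
      rw [inv_mul_le_iff₀ hA0]
      linarith
    · simp [h1, h2]

theorem dCOM_psd (hP : hess_psd_stmt) {m n : ℕ} {a : Fin n → E m → ℝ} (ha : ∀ i, SmC (a i))
    {lam : Fin n → ℝ} (hl : ∀ i, 0 ≤ lam i) (x : E m) : Psd (hs a lam x) :=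
  fun i => (hP (ha i).1 (ha i).2 x).smul (hl i)

theorem dCOM_clsOn (hCLO : aCLO_stmt) (hP : hess_psd_stmt) (hAd : hess_add_stmt)
    (hSm : hess_smul_stmt) (hSu : hess_sum_stmt) {m n : ℕ} {S T : Finset (Fin n)} (hTS : T ⊆ S)
    {K δ A : ℝ} (hK : 0 ≤ K) (hδ : 0 < δ) (hKA : K ≤ A) (hA : 1 ≤ A) {a : Fin n → E m → ℝ}
    (ha : ∀ i, SmC (a i)) (w X : E m → ℝ)
    (hX : Cls (fun y => hs a (wt T K (S \ T) (cut δ (w y))) y)
      (fun y => X y + K * ∑ i ∈ T, a i y)) :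
    ClsOn (fun y => hs a (wt S 1 ∅ 0) y) {x | w x < δ / 2}
      (fun x => A⁻¹ * (X x - ∑ j ∈ S \ T, a j x) + ∑ i ∈ S, a i x) := by
  classical
  intro R ε hε
  have hA0 : 0 < A := lt_of_lt_of_le one_pos hA
  obtain ⟨κ₁, hκ, hκ1, hκ2⟩ := hX R (ε * A) (by positivity)
  have hmu : ∀ i ∈ S, 0 ≤ 1 - A⁻¹ * wt T K (S \ T) 1 i := by
    intro i hi
    have h1 := dCOM_wt_le hTS hKA hA i
    have h2 : wt S 1 ∅ 0 i = 1 := by simp [wt, hi]
    rw [h2] at h1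
    linarith
  have hs1 : SmC (fun x => ∑ i ∈ S, (1 - A⁻¹ * wt T K (S \ T) 1 i) * a i x) :=
    dCOM_smc_sum ha S hmu
  have hs2 : SmC (fun x => A⁻¹ * κ₁ x) := dCOM_smc_smul hκ (by positivity)
  refine ⟨fun x => A⁻¹ * κ₁ x + ∑ i ∈ S, (1 - A⁻¹ * wt T K (S \ T) 1 i) * a i x,
    dCOM_smc_add hs2 hs1, ?_, ?_⟩
  · intro x hx
    have h1 : ∑ i ∈ S, (1 - A⁻¹ * wt T K (S \ T) 1 i) * a i x =
        ∑ i ∈ S, a i x - A⁻¹ * (K * ∑ i ∈ T, a i x + ∑ i ∈ S \ T, a i x) := by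
      rw [← dCOM_sum_wt1 hTS K (fun i => a i x), Finset.mul_sum, ← Finset.sum_sub_distrib]
      refine Finset.sum_congr rfl fun i _ => ?_
      ring
    have h2 : A⁻¹ * κ₁ x + ∑ i ∈ S, (1 - A⁻¹ * wt T K (S \ T) 1 i) * a i x -
        (A⁻¹ * (X x - ∑ j ∈ S \ T, a j x) + ∑ i ∈ S, a i x) =
        A⁻¹ * (κ₁ x - (X x + K * ∑ i ∈ T, a i x)) := by
      rw [h1]
      ring
    change |A⁻¹ * κ₁ x + ∑ i ∈ S, (1 - A⁻¹ * wt T K (S \ T) 1 i) * a i x -
        (A⁻¹ * (X x - ∑ j ∈ S \ T, a j x) + ∑ i ∈ S, a i x)| ≤ ε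
    rw [h2, abs_mul, abs_of_pos (inv_pos.2 hA0), inv_mul_le_iff₀ hA0]
    have h3 := hκ1 x hx
    rw [mul_comm A ε]
    exact h3
  · intro x hx hxO
    have hcut : cut δ (w x) = 1 := dCOM_cut hδ hxO
    have h1 := hκ2 x hx
    simp only [hcut] at h1
    -- the Hessian
    have hcd : ∀ i, ContDiff ℝ ∞ (fun x => (1 - A⁻¹ * wt T K (S \ T) 1 i) * a i x) :=
      fun i => contDiff_const.mul (ha i).1
    have h2 : hess (fun x => A⁻¹ * κ₁ x + ∑ i ∈ S, (1 - A⁻¹ * wt T K (S \ T) 1 i) * a i x) x =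
        A⁻¹ • hess κ₁ x + ∑ i ∈ S, (1 - A⁻¹ * wt T K (S \ T) 1 i) • hess (a i) x := by
      rw [hAd hs2.1 hs1.1 x, hSm hκ.1, hSu S hcd x]
      congr 1
      refine Finset.sum_congr rfl fun i _ => ?_
      rw [hSm (ha i).1]
    have h3 : ∑ i, hs a (wt S 1 ∅ 0) x i = ∑ i ∈ S, hess (a i) x :=
      dCOM_sum_one S (fun i => hess (a i) x)
    have h4 : ∑ i, hs a (wt T K (S \ T) 1) x i = ∑ i ∈ S, wt T K (S \ T) 1 i • hess (a i) x :=
      dCOM_sum_wt hTS K 1 (fun i => hess (a i) x)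
    have h5 : hess (fun x => A⁻¹ * κ₁ x + ∑ i ∈ S, (1 - A⁻¹ * wt T K (S \ T) 1 i) * a i x) x -
        ∑ i, hs a (wt S 1 ∅ 0) x i =
        A⁻¹ • (hess κ₁ x - ∑ i, hs a (wt T K (S \ T) 1) x i) := by
      rw [h2, h3, h4, smul_sub, Finset.smul_sum, add_sub_assoc, ← Finset.sum_sub_distrib,
        sub_eq_add_neg (A⁻¹ • hess κ₁ x), ← Finset.sum_neg_distrib]
      congr 1
      refine Finset.sum_congr rfl fun i _ => ?_
      rw [sub_smul, one_smul, mul_smul]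
      abel
    change hess (fun x => A⁻¹ * κ₁ x + ∑ i ∈ S, (1 - A⁻¹ * wt T K (S \ T) 1 i) * a i x) x -
        ∑ i, hs a (wt S 1 ∅ 0) x i ∈ GG (hs a (wt S 1 ∅ 0) x)
    rw [h5]
    have hps : Psd (hs a (wt T K (S \ T) 1) x) :=
      dCOM_psd hP ha (fun i => dCOM_wt_nn S T hK zero_le_one i) x
    have h6 := (hCLO _ hps).2.2.2.2.1 A⁻¹ _ (by positivity) h1
    have hpa : Psd (fun i => hess (a i) x) := fun i => hP (ha i).1 (ha i).2 x
    have h7 := (hCLO _ hpa).2.2.2.1 (fun i => A⁻¹ * wt T K (S \ T) 1 i) (wt S 1 ∅ 0)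
      (fun i => mul_nonneg (by positivity) (dCOM_wt_nn S T hK zero_le_one i))
      (fun i => dCOM_wt_le hTS hKA hA i)
    have h8 : sc (fun _ => A⁻¹) (hs a (wt T K (S \ T) 1) x) =
        sc (fun i => A⁻¹ * wt T K (S \ T) 1 i) (fun i => hess (a i) x) := by
      funext i
      change A⁻¹ • (wt T K (S \ T) 1 i • hess (a i) x) =
        (A⁻¹ * wt T K (S \ T) 1 i) • hess (a i) x
      rw [mul_smul]
    rw [h8] at h6
    exact h7 h6

theorem dCOM (hCLO : aCLO_stmt) (hGLU : bGLU_stmt) (hGEO : dGEO_stmt) (hWQ : dWQ_stmt)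
    (hXQ : dXQ_stmt) (hP : hess_psd_stmt) (hAd : hess_add_stmt) (hSm : hess_smul_stmt)
    (hSu : hess_sum_stmt) : dCOM_stmt := by
  intro m n S T D r ρ K δ L a hTS hTm hρ hρr hρ1 hK hδ hL ha hG hb
  have hm : 1 ≤ m := by omega
  obtain ⟨-, hw1, hw2, hw3, hw4⟩ := hWQ S D r a hm ha
  obtain ⟨-, hX1, hX2, hX3, hX4⟩ := hXQ S T D r ρ K δ L a hTS hTm hρ hK hδ ha hG
  obtain ⟨-, -, hq0, -, -, -, -, hball, -⟩ := hGEO D
  set A := max (max K 2) (8 * L / δ) with hAdef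
  have hKA : K ≤ A := (le_max_left _ _).trans (le_max_left _ _)
  have h2A : 2 ≤ A := (le_max_right _ _).trans (le_max_left _ _)
  have hLA : 8 * L / δ ≤ A := le_max_right _ _
  have hA1 : 1 ≤ A := by linarith
  have hA0 : 0 < A := by linarith
  have hpsd : ∀ x : E m, Psd ((fun y => hs a (wt S 1 ∅ 0) y) x) := fun x =>
    dCOM_psd hP ha (fun i => by
      unfold wt
      split_ifs <;> norm_num) x
  have hOn := dCOM_clsOn hCLO hP hAd hSm hSu hTS hK hδ hKA hA1 ha (wf S D r a)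
    (Xf S T D r ρ K δ a) hX4
  -- `v` is small off `O`
  have hLA' : 2 * L * A⁻¹ ≤ δ / 4 := by
    rw [div_le_iff₀ hδ] at hLA
    rw [mul_inv_le_iff₀ hA0]
    linarith
  have hvout : ∀ x : E m, x ∉ Metric.ball (0 : E m) (2 * ρ) →
      A⁻¹ * (Xf S T D r ρ K δ a x - ∑ j ∈ S \ T, a j x) = A⁻¹ * Qf D x := by
    intro x hx
    rw [hX2 x hx]
    unfold Gf
    ring
  have hoff : ∀ x : E m, x ∉ {x | wf S D r a x < δ / 2} →
      A⁻¹ * (Xf S T D r ρ K δ a x - ∑ j ∈ S \ T, a j x) + δ / 4 ≤ wf S D r a x := by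
    intro x hx
    have hx' : δ / 2 ≤ wf S D r a x := not_lt.1 hx
    by_cases hxb : x ∈ Metric.ball (0 : E m) (2 * ρ)
    · rw [Metric.mem_ball, dist_zero_right] at hxb
      have h1 := hX3 x hxb.le
      have h2 := abs_le.1 (hb x hxb.le)
      have h3 : A⁻¹ * (Xf S T D r ρ K δ a x - ∑ j ∈ S \ T, a j x) ≤ A⁻¹ * (2 * L) :=
        mul_le_mul_of_nonneg_left (by linarith) (by positivity)
      rw [mul_comm A⁻¹ (2 * L)] at h3
      linarith
    · rw [hvout x hxb]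
      have h1 := hw1 x
      have h2 := hq0 x
      have h3 : A⁻¹ * Qf D x ≤ 2⁻¹ * Qf D x :=
        mul_le_mul_of_nonneg_right (inv_anti₀ two_pos h2A) h2
      linarith
  have hglue := hGLU (fun y => hs a (wt S 1 ∅ 0) y) hpsd {x | wf S D r a x < δ / 2}
    (fun y => wf S D r a y + ∑ i ∈ S, a i y)
    (fun x => A⁻¹ * (Xf S T D r ρ K δ a x - ∑ j ∈ S \ T, a j x) + ∑ i ∈ S, a i x) hw3 hOn
    (fun R => ⟨δ / 4, by positivity, fun x _ hx => by
      have := hoff x hx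
      linarith⟩)
  have hmax := hw4 _ hglue (by
    intro y hy
    have hyb : y ∉ Metric.ball (0 : E m) (2 * ρ) := fun h => hy (hball r (2 * ρ) hρr hρ1 h)
    apply max_le
    · rw [hw2 y hy]
    · have h1 := hvout y hyb
      have h2 := hq0 y
      have h3 : A⁻¹ * Qf D y ≤ 1 * Qf D y :=
        mul_le_mul_of_nonneg_right (inv_le_one_of_one_le₀ hA1) h2
      linarith)
  intro x
  have h1 := (le_max_right _ _).trans (hmax x)
  have h2 : A⁻¹ * (Xf S T D r ρ K δ a x - ∑ j ∈ S \ T, a j x) ≤ wf S D r a x := by linarith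
  rwa [inv_mul_le_iff₀ hA0] at h2

end Pool.Agent.helper40.SN
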