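import Pool.Agent.helper69.SN.SpecB

/-!
Row sn:xTCH of project sn (MP_d2d7b9): second order touching from below at a point of maximality.
-/

open scoped Pointwise ContDiff
open MeasureTheory Set Filter Topology

set_option linter.unusedVariables false

namespace Pool.Agent.helper85.SN

open Pool.Agent.helper83.SC Pool.Agent.helper69.SN

/-- A matrix with small entries is small as a quadratic form. -/
theorem xTCH_entry {m : ℕ} {A : Mat m} {c : ℝ} (hA : A.IsHermitian) (h : ∀ i j, |A i j| ≤ c) :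
    (((m : ℝ) * c) • (1 : Mat m) - A).PosSemidef := by
  refine Matrix.PosSemidef.of_dotProduct_mulVec_nonneg ?_ ?_
  · refine Matrix.IsHermitian.sub ?_ hA
    rw [Matrix.IsHermitian, Matrix.conjTranspose_smul, Matrix.conjTranspose_one, star_trivial]
  · intro v
    have h1 : ∀ i j, v i * A i j * v j ≤ c * (v i ^ 2 + v j ^ 2) / 2 := by
      intro i j
      have h2 : v i * A i j * v j ≤ |v i * A i j * v j| := le_abs_self _
      have h3 : |v i * A i j * v j| = |A i j| * (|v i| * |v j|) := by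
        rw [abs_mul, abs_mul]; ring
      have h4 : |A i j| * (|v i| * |v j|) ≤ c * (|v i| * |v j|) :=
        mul_le_mul_of_nonneg_right (h i j) (by positivity)
      have hc : 0 ≤ c := le_trans (abs_nonneg _) (h i j)
      have h5 : |v i| * |v j| ≤ (v i ^ 2 + v j ^ 2) / 2 := by
        nlinarith [sq_nonneg (|v i| - |v j|), sq_abs (v i), sq_abs (v j)]
      have h6 : c * (|v i| * |v j|) ≤ c * ((v i ^ 2 + v j ^ 2) / 2) :=
        mul_le_mul_of_nonneg_left h5 hc
      calc v i * A i j * v j ≤ |v i * A i j * v j| := h2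
        _ = |A i j| * (|v i| * |v j|) := h3
        _ ≤ c * (|v i| * |v j|) := h4
        _ ≤ c * ((v i ^ 2 + v j ^ 2) / 2) := h6
        _ = c * (v i ^ 2 + v j ^ 2) / 2 := by ring
    have h2 : ∑ i, ∑ j, v i * A i j * v j ≤ ∑ i : Fin m, ∑ j : Fin m, c * (v i ^ 2 + v j ^ 2) / 2 :=
      Finset.sum_le_sum fun i _ => Finset.sum_le_sum fun j _ => h1 i j
    have h3 : ∑ i : Fin m, ∑ j : Fin m, c * (v i ^ 2 + v j ^ 2) / 2
        = (m : ℝ) * c * ∑ i : Fin m, v i ^ 2 := by
      have h4 : ∀ i : Fin m, ∑ j : Fin m, c * (v i ^ 2 + v j ^ 2) / 2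
          = (m : ℝ) * (c / 2 * v i ^ 2) + c / 2 * ∑ j : Fin m, v j ^ 2 := by
        intro i
        rw [Finset.mul_sum]
        have h5 : ∀ j : Fin m, c * (v i ^ 2 + v j ^ 2) / 2 = c / 2 * v i ^ 2 + c / 2 * v j ^ 2 := by
          intro j; ring
        rw [Finset.sum_congr rfl fun j _ => h5 j, Finset.sum_add_distrib, Finset.sum_const,
          Finset.card_univ, Fintype.card_fin, nsmul_eq_mul]
      rw [Finset.sum_congr rfl fun i _ => h4 i, Finset.sum_add_distrib, Finset.sum_const,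
        Finset.card_univ, Fintype.card_fin, nsmul_eq_mul, ← Finset.mul_sum, ← Finset.mul_sum]
      ring
    have h5 : star v ⬝ᵥ (((m : ℝ) * c) • (1 : Mat m) - A).mulVec v
        = (m : ℝ) * c * ∑ i : Fin m, v i ^ 2 - ∑ i, ∑ j, v i * A i j * v j := by
      rw [star_trivial, Matrix.sub_mulVec, Matrix.smul_mulVec, Matrix.one_mulVec,
        dotProduct_sub, dotProduct_smul, smul_eq_mul]
      congr 1
      · congr 1
        exact Finset.sum_congr rfl fun i _ => by ring
      · simp only [dotProduct, Matrix.mulVec, Finset.mul_sum]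
        exact Finset.sum_congr rfl fun i _ => Finset.sum_congr rfl fun j _ => by ring
    rw [h5]
    linarith

theorem xTCH_qf {m : ℕ} (M : Mat m) (c : ℝ) (h : E m) :
    qf (M - c • (1 : Mat m)) h = qf M h - c * ‖h‖ ^ 2 := by
  unfold qf
  have h1 : ∀ i j : Fin m, h i * (M - c • (1 : Mat m)) i j * h j =
      h i * M i j * h j - (if i = j then c * (h i * h j) else 0) := by
    intro i j
    rw [Matrix.sub_apply, Matrix.smul_apply, Matrix.one_apply, smul_eq_mul]
    split_ifs <;> ring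
  have h2 : ∑ i : Fin m, ∑ j : Fin m, h i * (M - c • (1 : Mat m)) i j * h j =
      ∑ i : Fin m, ∑ j : Fin m, h i * M i j * h j - ∑ i : Fin m, c * (h i * h i) := by
    rw [← Finset.sum_sub_distrib]
    refine Finset.sum_congr rfl fun i _ => ?_
    rw [Finset.sum_congr rfl fun j _ => h1 i j, Finset.sum_sub_distrib, Finset.sum_ite_eq]
    simp
  rw [h2, EuclideanSpace.real_norm_sq_eq, Finset.mul_sum]
  congr 1
  refine Finset.sum_congr rfl fun i _ => ?_
  ring

theorem xTCH_entries {m n : ℕ} (B : E m → Fin n → Mat m) (hBc : ∀ i, Continuous fun x => B x i)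
    (y : E m) (η : ℝ) (hη : 0 < η) : ∃ ρ : ℝ, 0 < ρ ∧ ∀ x : E m, dist x y < ρ → ∀ i j k,
      |B x i j k - B y i j k| ≤ η := by
  have hF : Continuous fun x : E m => (fun i j k => B x i j k : Fin n → Fin m → Fin m → ℝ) := by
    refine continuous_pi fun i => continuous_pi fun j => continuous_pi fun k => ?_
    exact (continuous_id.matrix_elem j k).comp (hBc i)
  obtain ⟨ρ, hρ, hρ1⟩ := Metric.continuous_iff.1 hF y η hη
  refine ⟨ρ, hρ, fun x hx i j k => ?_⟩
  have h1 := hρ1 x hx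
  have e1 := dist_le_pi_dist (fun i j k => B x i j k : Fin n → Fin m → Fin m → ℝ)
    (fun i j k => B y i j k) i
  have e2 := dist_le_pi_dist (fun j k => B x i j k : Fin m → Fin m → ℝ)
    (fun j k => B y i j k) j
  have e3 := dist_le_pi_dist (fun k => B x i j k : Fin m → ℝ) (fun k => B y i j k) k
  rw [← Real.dist_eq]
  exact (e3.trans (e2.trans e1)).trans h1.le

theorem xTCH_bdd {m n : ℕ} (B : Fin n → Mat m) : ∃ β : ℝ, 0 ≤ β ∧ ∀ i j k, |B i j k| ≤ β := by
  refine ⟨∑ i, ∑ j, ∑ k, |B i j k|, by positivity, fun i j k => ?_⟩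
  have h1 : |B i j k| ≤ ∑ k, |B i j k| :=
    Finset.single_le_sum (f := fun k => |B i j k|) (fun _ _ => abs_nonneg _) (Finset.mem_univ k)
  have h2 : ∑ k, |B i j k| ≤ ∑ j, ∑ k, |B i j k| :=
    Finset.single_le_sum (f := fun j => ∑ k, |B i j k|)
      (fun _ _ => Finset.sum_nonneg fun _ _ => abs_nonneg _) (Finset.mem_univ j)
  have h3 : ∑ j, ∑ k, |B i j k| ≤ ∑ i, ∑ j, ∑ k, |B i j k| :=
    Finset.single_le_sum (f := fun i => ∑ j, ∑ k, |B i j k|)
      (fun _ _ => Finset.sum_nonneg fun _ _ => Finset.sum_nonneg fun _ _ => abs_nonneg _)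
      (Finset.mem_univ i)
  exact h1.trans (h2.trans h3)

theorem xTCH_one {m : ℕ} {c : ℝ} (hc : 0 ≤ c) : (c • (1 : Mat m)).PosSemidef :=
  Matrix.PosSemidef.one.smul hc

/-- The quadratic function is in the class near `y`. -/
theorem xTCH_near (hPER : aPER_stmt) (hBSM : aBSM_stmt) (hCLO : aCLO_stmt) {m n : ℕ}
    (B : E m → Fin n → Mat m) (hB : ∀ x, Psd (B x)) (hBc : ∀ i, Continuous fun x => B x i)
    (y : E m) (N : Mat m) (hN : N - ∑ i, B y i ∈ GG (B y)) (δ : ℝ) (hδ : 0 < δ) :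
    N.PosSemidef ∧ ∃ ρ : ℝ, 0 < ρ ∧ ∀ x : E m, dist x y < ρ →
      N - ∑ i, B x i + δ • (1 : Mat m) ∈ GG (B x) := by
  have hNp : N.PosSemidef := by
    have h1 := (hBSM (B y) (hB y) _ hN).2
    rwa [sub_add_cancel] at h1
  refine ⟨hNp, ?_⟩
  obtain ⟨β, hβ0, hβ⟩ := xTCH_bdd (B y)
  obtain ⟨η, hη, hper⟩ := hPER (m := m) (n := n) ((m : ℝ) * (β + 1)) δ (by positivity) hδ
  have hη' : 0 < min 1 (η / (m + 1)) := lt_min one_pos (by positivity)
  obtain ⟨ρ, hρ, hent⟩ := xTCH_entries B hBc y _ hη'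
  refine ⟨ρ, hρ, fun x hx => ?_⟩
  have hLy : Le (B y) ((m : ℝ) * (β + 1)) := fun i =>
    xTCH_entry (hB y i).isHermitian (fun j k => (hβ i j k).trans (by linarith))
  have hLx : Le (B x) ((m : ℝ) * (β + 1)) := fun i =>
    xTCH_entry (hB x i).isHermitian (fun j k => by
      have h1 := (hent x hx i j k).trans (min_le_left _ _)
      have h2 := hβ i j k
      have h3 : |B x i j k| ≤ |B x i j k - B y i j k| + |B y i j k| := by
        have := abs_add_le (B x i j k - B y i j k) (B y i j k)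
        rwa [sub_add_cancel] at this
      linarith)
  have hsmall : ∀ D : Mat m, D.IsHermitian → (∀ j k, |D j k| ≤ η / (m + 1)) →
      (η • (1 + N) - D).PosSemidef := by
    intro D hD hD1
    have h1 := xTCH_entry hD hD1
    have h2 : (m : ℝ) * (η / (m + 1)) ≤ η := by
      rw [mul_div_assoc', div_le_iff₀ (by positivity)]
      nlinarith
    have h3 : η • (1 + N) - D = ((m : ℝ) * (η / (m + 1))) • (1 : Mat m) - D +
        (η - (m : ℝ) * (η / (m + 1))) • (1 : Mat m) + η • N := by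
      rw [smul_add, sub_smul]
      abel
    rw [h3]
    exact (h1.add (xTCH_one (by linarith))).add (hNp.smul hη.le)
  have hmem : N - ∑ i, B y i + η • (1 : Mat m) ∈ GG (B y) :=
    (hCLO (B y) (hB y)).2.1 _ _ hN (xTCH_one hη.le)
  refine hper (B y) (B x) N (hB y) (hB x) hLy hLx hNp (fun i => ?_) (fun i => ?_) hmem
  · refine hsmall _ ((hB y i).isHermitian.sub (hB x i).isHermitian) (fun j k => ?_)
    have h1 := (hent x hx i j k).trans (min_le_right _ _)
    rw [Matrix.sub_apply, abs_sub_comm]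
    exact h1
  · refine hsmall _ ((hB x i).isHermitian.sub (hB y i).isHermitian) (fun j k => ?_)
    have h1 := (hent x hx i j k).trans (min_le_right _ _)
    rw [Matrix.sub_apply]
    exact h1

theorem xTCH (hBP : bPER_stmt) (hLGL : bLGL_stmt) (hQUA : bQUA_stmt) (hCVX : bCVX_stmt)
    (hPER : aPER_stmt) (hBSM : aBSM_stmt) (hCLO : aCLO_stmt) : xTCH_stmt := by
  classical
  intro m n hm B hB hBc U κ₀ hU hUb hκ₀ y hy p M hM htouch s hs hcon
  obtain ⟨hκ, -, hκ2, hκ3⟩ := hBP hm B hB U κ₀ hUb hκ₀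
  obtain ⟨hN₀, ρ, hρ, hnear⟩ := xTCH_near hPER hBSM hCLO B hB hBc y (M - s • (1 : Mat m)) hcon
    (s / 2) (by positivity)
  have hNeq : M - (s / 2) • (1 : Mat m) = M - s • (1 : Mat m) + (s / 2) • (1 : Mat m) := by
    have h1 : s • (1 : Mat m) = (s / 2) • (1 : Mat m) + (s / 2) • (1 : Mat m) := by
      rw [← add_smul]
      congr 1
      ring
    rw [h1]
    abel
  have hN : (M - (s / 2) • (1 : Mat m)).PosSemidef := by
    rw [hNeq]
    exact hN₀.add (xTCH_one (by positivity))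
  have hNs : (M - (s / 2) • (1 : Mat m)).IsSymm := by
    have h1 := hN.isHermitian
    rw [Matrix.IsHermitian, Matrix.conjTranspose_eq_transpose_of_trivial] at h1
    exact h1
  obtain ⟨r₀, hr₀, hr₀t⟩ := htouch (s / 8) (by positivity)
  obtain ⟨r₁, hr₁, hr₁U⟩ := Metric.isOpen_iff.1 hU y hy
  obtain ⟨r, hr, hrr₀, hrr₁, hrρ⟩ : ∃ r : ℝ, 0 < r ∧ r ≤ r₀ ∧ r ≤ r₁ ∧ r < ρ := by
    refine ⟨min (min r₀ r₁) (ρ / 2), lt_min (lt_min hr₀ hr₁) (by positivity), ?_, ?_, ?_⟩
    · exact (min_le_left _ _).trans (min_le_left _ _)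
    · exact (min_le_left _ _).trans (min_le_right _ _)
    · exact lt_of_le_of_lt (min_le_right _ _) (by linarith)
  have hc₀ : 0 < s / 16 * r ^ 2 := by positivity
  obtain ⟨hq1, hq2⟩ := hQUA (per B U κ₀ y + s / 16 * r ^ 2) p y (M - (s / 2) • (1 : Mat m)) hNs
  have hqS : SmC (fun x => per B U κ₀ y + s / 16 * r ^ 2 + inner ℝ p (x - y) +
      1 / 2 * qf (M - (s / 2) • (1 : Mat m)) (x - y)) :=
    ⟨hq1, (hCVX hq1).2 (fun x => by rw [hq2 x]; exact hN)⟩
  have hcl : ∀ x ∈ closure (Metric.ball y r), hess (fun x => per B U κ₀ y + s / 16 * r ^ 2 +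
      inner ℝ p (x - y) + 1 / 2 * qf (M - (s / 2) • (1 : Mat m)) (x - y)) x - ∑ i, B x i
      ∈ GG (B x) := by
    intro x hx
    have h1 := Metric.closure_ball_subset_closedBall hx
    rw [Metric.mem_closedBall] at h1
    have h2 := hnear x (lt_of_le_of_lt h1 hrρ)
    rw [hq2 x, hNeq]
    have h3 : M - s • (1 : Mat m) + (s / 2) • (1 : Mat m) - ∑ i, B x i =
        M - s • (1 : Mat m) - ∑ i, B x i + (s / 2) • (1 : Mat m) := by abel
    rw [h3]
    exact h2
  have hfr : ∀ x ∈ frontier (Metric.ball y r), (fun x => per B U κ₀ y + s / 16 * r ^ 2 +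
      inner ℝ p (x - y) + 1 / 2 * qf (M - (s / 2) • (1 : Mat m)) (x - y)) x < per B U κ₀ x := by
    intro x hx
    have h1 := Metric.frontier_ball_subset_sphere hx
    rw [mem_sphere_iff_norm] at h1
    have h2 := hr₀t (x - y) (by rw [h1]; exact hrr₀)
    rw [add_sub_cancel, h1] at h2
    change per B U κ₀ y + s / 16 * r ^ 2 +
      inner ℝ p (x - y) + 1 / 2 * qf (M - (s / 2) • (1 : Mat m)) (x - y) < per B U κ₀ x
    rw [xTCH_qf, h1]
    nlinarith
  have hcls := hLGL B hB (Metric.ball y r) (per B U κ₀)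
    (fun x => per B U κ₀ y + s / 16 * r ^ 2 + inner ℝ p (x - y) +
      1 / 2 * qf (M - (s / 2) • (1 : Mat m)) (x - y)) Metric.isOpen_ball Metric.isBounded_ball hκ
    hqS hcl hfr (fun x => if x ∈ Metric.ball y r then
      max (per B U κ₀ x) (per B U κ₀ y + s / 16 * r ^ 2 + inner ℝ p (x - y) +
      1 / 2 * qf (M - (s / 2) • (1 : Mat m)) (x - y)) else per B U κ₀ x)
    (fun x hx => if_pos hx) (fun x hx => if_neg hx)
  have hfin := hκ3 _ hcls (fun z hz => by
    have h1 : z ∉ Metric.ball y r := fun h => hz (hr₁U (Metric.ball_subset_ball hrr₁ h))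
    rw [if_neg h1]
    exact (hκ2 z hz).le) y
  rw [if_pos (Metric.mem_ball_self hr)] at hfin
  have h2 := (le_max_right _ _).trans hfin
  have h3 : qf (M - (s / 2) • (1 : Mat m)) (y - y) = 0 := by
    rw [sub_self]
    simp [qf]
  rw [h3, sub_self, inner_zero_right] at h2
  linarith

end Pool.Agent.helper85.SN
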