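import Pool.Agent.helper40.SN.SpecD

/-!
Row sn:dHOP (project sn, MP_d2d7b9): `P_{T + j}` implies `Sm_{T,j}`.
-/

open scoped Pointwise ContDiff
open MeasureTheory Set Filter Topology Pool.Agent.helper83.SC Pool.Agent.helper69.SN

set_option linter.unusedVariables false

namespace Pool.Agent.helper40.SN

theorem dHOP_hess_const {m : ℕ} (c : ℝ) (x : E m) : hess (fun _ : E m => c) x = 0 := by
  ext i k
  simp only [hess, Matrix.of_apply, pd, Matrix.zero_apply]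
  have h1 : (fun y : E m => fderiv ℝ (fun _ : E m => c) y (e k)) = fun _ => (0 : ℝ) := by
    funext y
    simp
  change fderiv ℝ (fun y : E m => fderiv ℝ (fun _ : E m => c) y (e k)) x (e i) = 0
  rw [h1]
  simp

theorem dHOP_near {m n : ℕ} {h : Fin n → E m → ℝ} {η R η' R' : ℝ} {a : Fin n → E m → ℝ}
    (ha : Near h η R a) (hη : η ≤ η') (hR : R' ≤ R) : Near h η' R' a :=
  ⟨ha.1, fun i x hx => (ha.2 i x (hx.trans hR)).trans hη⟩

theorem dHOP_psd (hP : hess_psd_stmt) {m n : ℕ} {a : Fin n → E m → ℝ} (ha : ∀ i, SmC (a i))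
    (x : E m) : Psd (fun i => hess (a i) x) := fun i => hP (ha i).1 (ha i).2 x

theorem dHOP_wt_nn {n : ℕ} (S : Finset (Fin n)) {K : ℝ} (hK : 0 ≤ K) (i : Fin n) :
    0 ≤ wt S K ∅ 0 i := by
  unfold wt
  split_ifs <;> first | exact hK | exact le_refl _

theorem dHOP_wt_mono {n : ℕ} (S : Finset (Fin n)) (j : Fin n) {K : ℝ} (hK : 0 ≤ K) (i : Fin n) :
    wt S K ∅ 0 i ≤ wt (insert j S) K ∅ 0 i := by
  unfold wt
  by_cases h1 : i ∈ S
  · simp [h1]
  · by_cases h2 : i = j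
    · subst h2
      simp [h1, hK]
    · simp [h1, h2]

theorem dHOP_psd_sc {m n : ℕ} {A : Fin n → Mat m} (hA : Psd A) {lam : Fin n → ℝ}
    (hl : ∀ i, 0 ≤ lam i) : Psd (sc lam A) := fun i => (hA i).smul (hl i)

/-- The pointwise part. -/
theorem dHOP_pt (hCLO : aCLO_stmt) (hNXT : aNXT_stmt) {m n : ℕ} (A : Fin n → Mat m) (hA : Psd A)
    (T : Finset (Fin n)) (j : Fin n) (hj : j ∉ T) (K L : ℝ) (hK : 0 < K) (hL : 1 ≤ L)
    (M : Mat m) (hM : M ∈ GG (sc (wt T K ∅ 0) A)) :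
    L⁻¹ • (M + A j) ∈ GG (sc (wt (insert j T) K ∅ 0) A) ∧
    dPh (sc (wt T K ∅ 0) A) 2 (A j) M ≤
      K⁻¹ * L ^ m * Ph (sc (wt (insert j T) K ∅ 0) A) (L⁻¹ • (M + A j)) := by
  have hK0 := hK.le
  have hps : Psd (sc (wt (insert j T) K ∅ 0) A) :=
    dHOP_psd_sc hA (fun i => dHOP_wt_nn (insert j T) hK0 i)
  obtain ⟨-, -, -, h4, -⟩ := hCLO A hA
  obtain ⟨-, h2, -, -, -, h6, h7⟩ := hCLO (sc (wt (insert j T) K ∅ 0) A) hps
  have hM1 : M ∈ GG (sc (wt (insert j T) K ∅ 0) A) :=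
    h4 _ _ (fun i => dHOP_wt_nn T hK0 i) (fun i => dHOP_wt_mono T j hK0 i) hM
  have hM2 := h2 M (A j) hM1 (hA j)
  have hL0 : 0 < L := lt_of_lt_of_le one_pos hL
  refine ⟨h6 L⁻¹ _ (by positivity) (inv_le_one_of_one_le₀ hL) hM2, ?_⟩
  have h8 := h7 L _ hL hM2
  have h9 := hNXT A hA T j hj K hK M hM
  refine h9.trans ?_
  rw [mul_assoc]
  exact mul_le_mul_of_nonneg_left h8 (by positivity)

theorem dHOP_meas (hWQ : dWQ_stmt) {m n : ℕ} (S : Finset (Fin n)) (D : Submodule ℝ (E m)) (r : ℝ)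
    (a : Fin n → E m → ℝ) (ha : ∀ i, SmC (a i)) (ρ δ : ℝ) :
    MeasurableSet {x : E m | ‖x‖ ≤ ρ ∧ wf S D r a x < δ} := by
  have hc : Continuous (wf S D r a) := by
    rcases Nat.eq_zero_or_pos m with hm | hm
    · subst hm
      have : Subsingleton (E 0) := inferInstance
      refine continuous_iff_continuousAt.2 fun x => ?_
      have : wf S D r a = fun _ => wf S D r a x := by
        funext y
        rw [Subsingleton.elim y x]
      rw [this]
      exact continuousAt_const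
    · exact (hWQ S D r a hm ha).1
  exact (measurableSet_le continuous_norm.measurable measurable_const).inter
    (measurableSet_lt hc.measurable measurable_const)

theorem dHOP (hCLO : aCLO_stmt) (hNXT : aNXT_stmt) (hBND : dBND_stmt) (hWQ : dWQ_stmt)
    (hMNO : dMNO_stmt) (hP : hess_psd_stmt) (hAd : hess_add_stmt) (hSm : hess_smul_stmt) :
    dHOP_stmt := by
  intro m n S T j D h r hj hh hPT
  obtain ⟨ρ, hρ, hρ1, hPT⟩ := hPT
  refine ⟨ρ, hρ, hρ1, ?_⟩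
  intro L τ hL hτ
  obtain ⟨L₀, hL₀, hB⟩ := hBND S T D h hh 1
  have hL1 : 1 ≤ 2 * (L + L₀) := by linarith
  have hL1p : 0 < 2 * (L + L₀) := by linarith
  obtain ⟨K₀, hK₀⟩ := hPT (τ / (2 * (L + L₀)) ^ m) (by positivity)
  refine ⟨max K₀ 1, ?_⟩
  intro K hK
  have hK1 : 1 ≤ K := (le_max_right _ _).trans hK
  have hKp : 0 < K := lt_of_lt_of_le one_pos hK1
  obtain ⟨δ, η, R, hδ, hη, hmain⟩ := hK₀ K ((le_max_left _ _).trans hK)
  refine ⟨δ, min η 1, max R 1, hδ, lt_min hη one_pos, ?_⟩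
  intro a ha X hX hXL
  have ha1 : Near h η R a := dHOP_near ha (min_le_left _ _) (le_max_left _ _)
  have ha2 : Near h 1 1 a := dHOP_near ha (min_le_right _ _) (le_max_right _ _)
  have hB1 := hB a ha2
  have hsa : ∀ i, SmC (a i) := ha.1
  have hZ := dHOP_meas hWQ S D r a hsa ρ δ
  have hZ1 : {x : E m | ‖x‖ ≤ ρ ∧ wf S D r a x < δ} ⊆ Metric.closedBall 0 1 := by
    intro x hx
    rw [Metric.mem_closedBall, dist_zero_right]
    exact hx.1.trans hρ1
  -- the function Y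
  have hYs : ContDiff ℝ ∞ (fun x => (2 * (L + L₀))⁻¹ * (X x + a j x + (L + L₀))) :=
    contDiff_const.mul ((hX.1.add (hsa j).1).add contDiff_const)
  have hYh : ∀ x, hess (fun x => (2 * (L + L₀))⁻¹ * (X x + a j x + (L + L₀))) x =
      (2 * (L + L₀))⁻¹ • (hess X x + hess (a j) x) := by
    intro x
    rw [hSm ((hX.1.add (hsa j).1).add contDiff_const) (2 * (L + L₀))⁻¹ x]
    rw [hAd (f := fun x => X x + a j x) (g := fun _ => L + L₀) (hX.1.add (hsa j).1)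
      contDiff_const x, hAd hX.1 (hsa j).1 x, dHOP_hess_const, add_zero]
  have hpt : ∀ x, ‖x‖ ≤ 1 →
      (2 * (L + L₀))⁻¹ • (hess X x + hess (a j) x) ∈ GG (hs a (wt (insert j T) K ∅ 0) x) ∧
      dPh (hs a (wt T K ∅ 0) x) 2 (hess (a j) x) (hess X x) ≤
        K⁻¹ * (2 * (L + L₀)) ^ m * Ph (hs a (wt (insert j T) K ∅ 0) x)
          ((2 * (L + L₀))⁻¹ • (hess X x + hess (a j) x)) := fun x hx =>
    dHOP_pt hCLO hNXT (fun i => hess (a i) x) (dHOP_psd hP hsa x) T j hj K (2 * (L + L₀)) hKp hL1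
      (hess X x) (hX.2 x hx)
  have hYc : InCl (insert j T) K a (fun x => (2 * (L + L₀))⁻¹ * (X x + a j x + (L + L₀))) := by
    refine ⟨hYs, fun x hx => ?_⟩
    rw [hYh x]
    exact (hpt x hx).1
  have hYb : ∀ x : E m, ‖x‖ ≤ 1 → 0 ≤ (2 * (L + L₀))⁻¹ * (X x + a j x + (L + L₀)) ∧
      (2 * (L + L₀))⁻¹ * (X x + a j x + (L + L₀)) ≤ 1 := by
    intro x hx
    have h1 := abs_le.1 (hXL x hx)
    have h2 := abs_le.1 ((hB1 x hx).1 j)
    constructor
    · apply mul_nonneg (by positivity)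
      linarith
    · rw [inv_mul_le_iff₀ hL1p]
      linarith
  have hfin := hmain a ha1 _ hYc hYb
  have hI1 := (hMNO T K j a X _ _ hKp.le hsa hX (subset_refl _) hZ1 hZ hZ).2.2.2.2.2
  have hI2 := (hMNO (insert j T) K j a _ _ _ hKp.le hsa hYc (subset_refl _) hZ1 hZ hZ).2.2.2.2.1
  have hmono : sm T K j a {x : E m | ‖x‖ ≤ ρ ∧ wf S D r a x < δ} X ≤
      K⁻¹ * (2 * (L + L₀)) ^ m * ms (insert j T) K a {x : E m | ‖x‖ ≤ ρ ∧ wf S D r a x < δ}
        (fun x => (2 * (L + L₀))⁻¹ * (X x + a j x + (L + L₀))) := by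
    unfold sm ms
    rw [← integral_const_mul]
    refine setIntegral_mono_on hI1 (hI2.const_mul _) hZ ?_
    intro x hx
    have hx1 : ‖x‖ ≤ 1 := hx.1.trans hρ1
    have := (hpt x hx1).2
    rw [hYh x]
    exact this
  refine hmono.trans ?_
  have hcoef : 0 ≤ K⁻¹ * (2 * (L + L₀)) ^ m := by positivity
  refine (mul_le_mul_of_nonneg_left hfin hcoef).trans ?_
  rw [Finset.card_insert_of_notMem hj]
  have hne : (2 * (L + L₀)) ^ m ≠ 0 := by positivity
  have hKne : K ≠ 0 := hKp.ne'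
  apply le_of_eq
  rw [pow_succ]
  field_simp

end Pool.Agent.helper40.SN
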